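import Pool.Agent.helper87.TR.Spec

/-! # Row tr:T2: reduced bases, Cramer -/

set_option autoImplicit false

namespace Pool.Agent.helper87.TR

open Polynomial Finset Module FP97
open Pool.Agent.helper97.FP

lemma T2_mem {P : ℂ[X]} (hP : P ≠ 0) {n : ℕ} : P ∈ degreeLT ℂ n ↔ P.natDegree < n := by
  rw [mem_degreeLT, ← natDegree_lt_iff_degree_lt hP]

lemma T2_mul {A B : ℂ[X]} {m g s : ℕ} (hA : A ∈ degreeLT ℂ (m - g))
    (hB : B ∈ degreeLT ℂ (g + 1 - s)) : A * B ∈ degreeLT ℂ (m - s) := by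
  by_cases h1 : A = 0
  · subst h1; simp
  by_cases h2 : B = 0
  · subst h2; simp
  rw [T2_mem (mul_ne_zero h1 h2), natDegree_mul h1 h2]
  rw [T2_mem h1] at hA
  rw [T2_mem h2] at hB
  omega

lemma T2_comb {ι : Type} {a : ι → ℂ} {c : ι → Fin 3 → ℂ} {K : Finset ι} {δ m g : ℕ}
    {F : Fin 3 → ℂ[X]} (hF : F ∈ NN a c K δ (g + 1)) {ρ : ℂ[X]} (hρ : ρ ∈ degreeLT ℂ (m - g)) :
    (fun q => ρ * F q) ∈ NN a c K δ m := by
  obtain ⟨h1, h2⟩ := hF
  refine ⟨fun q => T2_mul hρ (h1 q), fun k hk => ?_⟩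
  obtain ⟨s, hs⟩ := h2 k hk
  refine ⟨ρ.eval (a k) * s, fun q => ?_⟩
  rw [eval_mul, hs, mul_assoc]

theorem T2 (hDT : DT_stmt) : T2_stmt := by
  intro ι a c K δ ha F g hF
  obtain ⟨hmem, hdet, hsum⟩ := hF
  set P : ℂ[X] := ∏ k ∈ K, (X - C (a k)) ^ 2 with hPdef
  have hP0 : P ≠ 0 := (monic_prod_pow K a fun _ => 2).ne_zero
  have hPd : P.natDegree = 2 * K.card := by
    rw [hPdef, natDegree_prod_pow K a fun _ => 2]
    simp [mul_comm]
  -- the determinant
  obtain ⟨z, hz, hz0⟩ : ∃ z : ℂ, (Matrix.of F).det = P * C z ∧ z ≠ 0 := by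
    obtain ⟨⟨w, hw⟩, h2⟩ := hDT ι a c K δ ha F (fun i => g i + 1) hmem
    rw [hw] at h2
    rw [mem_degreeLT_mul hP0, hPd] at h2
    have h3 : w ∈ degreeLT ℂ 1 := by
      have e : g 0 + 1 + (g 1 + 1) + (g 2 + 1) - 2 - 3 * δ - 2 * K.card = 1 := by omega
      rwa [e] at h2
    have hw0 : w ≠ 0 := by
      rintro rfl
      exact hdet (by rw [hw, mul_zero])
    rw [T2_mem hw0] at h3
    have h4 : w = C (w.coeff 0) := eq_C_of_natDegree_eq_zero (by omega)
    refine ⟨w.coeff 0, by rw [hw, ← h4], fun h => hw0 ?_⟩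
    rw [h4, h, C_0]
  have one : ∀ m, ∀ x ∈ NN a c K δ m, ∃ ρ : Fin 3 → ℂ[X], (∀ i, ρ i ∈ degreeLT ℂ (m - g i)) ∧
      ∀ q, x q = ρ 0 * F 0 q + ρ 1 * F 1 q + ρ 2 * F 2 q := by
    intro m x hx
    have key : ∀ i, ∃ σ : ℂ[X], ((Matrix.of F).updateRow i x).det = P * σ ∧
        σ ∈ degreeLT ℂ (m - g i) := by
      intro i
      have hmem' : ∀ j, Function.update F i x j ∈
          NN a c K δ (Function.update (fun j => g j + 1) i m j) := by
        intro j
        by_cases h : j = i
        · subst h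
          simpa using hx
        · simpa [Function.update_of_ne h] using hmem j
      obtain ⟨⟨σ, hσ⟩, h2⟩ := hDT ι a c K δ ha _ _ hmem'
      refine ⟨σ, hσ, ?_⟩
      rw [hσ, mem_degreeLT_mul hP0, hPd] at h2
      have e : Function.update (fun j => g j + 1) i m 0 + Function.update (fun j => g j + 1) i m 1
          + Function.update (fun j => g j + 1) i m 2 - 2 - 3 * δ - 2 * K.card = m - g i := by
        fin_cases i
        · simp only [Function.update, Fin.isValue]
          simp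
          omega
        · simp only [Function.update, Fin.isValue]
          simp
          omega
        · simp only [Function.update, Fin.isValue]
          simp
          omega
      rwa [e] at h2
    choose σ hσ1 hσ2 using key
    refine ⟨fun i => C z⁻¹ * σ i, fun i => ?_, fun q => ?_⟩
    · change C z⁻¹ * σ i ∈ degreeLT ℂ (m - g i)
      rw [C_mul']
      exact Submodule.smul_mem _ _ (hσ2 i)
    · have h1 := congrFun (Matrix.mulVec_cramer (Matrix.of F).transpose x) q
      simp only [Matrix.mulVec, dotProduct, Matrix.cramer_transpose_apply, Matrix.det_transpose,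
        Fin.sum_univ_three, Matrix.transpose_apply, Matrix.of_apply, Pi.smul_apply,
        smul_eq_mul, hσ1, hz] at h1
      have h2 : P * (C z * x q) = P * (σ 0 * F 0 q + σ 1 * F 1 q + σ 2 * F 2 q) := by
        linear_combination -h1
      have h3 := mul_left_cancel₀ hP0 h2
      have h4 : C z⁻¹ * C z = (1 : ℂ[X]) := by
        rw [← C_mul, inv_mul_cancel₀ hz0, C_1]
      linear_combination (-(x q)) * h4 + C z⁻¹ * h3
  refine ⟨one, fun m => ?_⟩
  -- dimension
  let Θ : ((i : Fin 3) → degreeLT ℂ (m - g i)) →ₗ[ℂ] NN a c K δ m :=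
    { toFun := fun ρ => ⟨fun q => (ρ 0 : ℂ[X]) * F 0 q + (ρ 1 : ℂ[X]) * F 1 q
          + (ρ 2 : ℂ[X]) * F 2 q,
        add_mem (add_mem (T2_comb (hmem 0) (ρ 0).2) (T2_comb (hmem 1) (ρ 1).2))
          (T2_comb (hmem 2) (ρ 2).2)⟩
      map_add' := by
        intro ρ ρ'
        apply Subtype.ext
        funext q
        simp only [Pi.add_apply, Submodule.coe_add]
        ring
      map_smul' := by
        intro s ρ
        apply Subtype.ext
        funext q
        simp only [Pi.smul_apply, Submodule.coe_smul, RingHom.id_apply, smul_mul_assoc, smul_add] }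
  have hΘ : Function.Bijective Θ := by
    constructor
    · rw [injective_iff_map_eq_zero]
      intro ρ hρ
      have h1 : ∀ q, (ρ 0 : ℂ[X]) * F 0 q + (ρ 1 : ℂ[X]) * F 1 q + (ρ 2 : ℂ[X]) * F 2 q = 0 :=
        fun q => congrFun (congrArg Subtype.val hρ) q
      have h2 : (fun i => (ρ i : ℂ[X])) = 0 := by
        apply Matrix.eq_zero_of_vecMul_eq_zero hdet
        funext q
        simp only [Matrix.vecMul, dotProduct, Fin.sum_univ_three, Matrix.of_apply, Pi.zero_apply]
        exact h1 q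
      funext i
      exact Subtype.ext (congrFun h2 i)
    · rintro ⟨x, hx⟩
      obtain ⟨ρ, h1, h2⟩ := one m x hx
      refine ⟨fun i => ⟨ρ i, h1 i⟩, ?_⟩
      apply Subtype.ext
      funext q
      exact (h2 q).symm
  rw [← (LinearEquiv.ofBijective Θ hΘ).finrank_eq, Module.finrank_pi_fintype,
    Fin.sum_univ_three]
  simp only [finrank_degreeLT]

end Pool.Agent.helper87.TR
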