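import Pool.Agent.helper87.TR.Spec

/-! # Row tr:WN: the dimension of `WW a B i 2` is the dimension of the module `NN` -/

set_option autoImplicit false

namespace Pool.Agent.helper87.TR

open Polynomial Finset Module FP97
open Pool.Agent.helper97.FP

lemma WN_tau {h : ℕ} (a : Fin h → ℂ) (B : Fin h → Finset ℂ) :
    tau a B ≠ 0 ∧ (tau a B).natDegree = (KK B).card + 2 * (TT B).card := by
  have h1 : (∏ k ∈ KK B, (X - C (a k))) = ∏ k ∈ KK B, (X - C (a k)) ^ ((fun _ => 1) k) := by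
    simp
  have h2 : (∏ k ∈ TT B, (X - C (a k)) ^ 2) = ∏ k ∈ TT B, (X - C (a k)) ^ ((fun _ => 2) k) := rfl
  have m1 := monic_prod_pow (KK B) a fun _ => 1
  have m2 := monic_prod_pow (TT B) a fun _ => 2
  have d1 := natDegree_prod_pow (KK B) a fun _ => 1
  have d2 := natDegree_prod_pow (TT B) a fun _ => 2
  rw [← h1] at m1 d1
  rw [← h2] at m2 d2
  unfold tau
  refine ⟨mul_ne_zero m1.ne_zero m2.ne_zero, ?_⟩
  rw [natDegree_mul m1.ne_zero m2.ne_zero, d1, d2]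
  simp [mul_comm]

lemma WN_ev (P1 Q1 P2 Q2 : ℂ[X]) (x : Fin 3 → ℂ[X]) (t b : ℂ) :
    (Sy P1 Q1 P2 Q2 x 0).eval t + b * (Sy P1 Q1 P2 Q2 x 1).eval t
      + b ^ 2 * (Sy P1 Q1 P2 Q2 x 2).eval t
      = ev2 P1 Q1 P2 Q2 (fun q => (x q).eval t) t b := by
  simp only [Sy, ev2, Matrix.cons_val_zero, Matrix.cons_val_one, Matrix.cons_val, eval_add,
    eval_mul, eval_neg, eval_pow, eval_ofNat]
  ring

lemma WN_smul (P1 Q1 P2 Q2 : ℂ[X]) (c : Fin 3 → ℂ) (s t b : ℂ) :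
    ev2 P1 Q1 P2 Q2 (fun q => s * c q) t b = s * ev2 P1 Q1 P2 Q2 c t b := by
  simp only [ev2]
  ring

/-- the linear map `x ↦ τ * Sy x` -/
noncomputable def WN_lam (τ P1 Q1 P2 Q2 : ℂ[X]) : (Fin 3 → ℂ[X]) →ₗ[ℂ] (Fin 3 → ℂ[X]) where
  toFun x := fun q => τ * Sy P1 Q1 P2 Q2 x q
  map_add' x y := by
    funext q
    fin_cases q <;> simp [Sy] <;> ring
  map_smul' s x := by
    funext q
    fin_cases q <;> simp [Sy, smul_eq_C_mul] <;> ring

theorem WN (hS2 : S2_stmt) (hLC : LC_stmt) (hCK : CK_stmt) (hWV : WV_stmt) : WN_stmt := by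
  intro h a β B d P1 Q1 P2 Q2 c ha hB1 hBs hBas hc i
  obtain ⟨hτ0, hτd⟩ := WN_tau a B
  obtain ⟨hS, hSinj⟩ := hS2 (Fin h) a β (Sing B) d P1 Q1 P2 Q2 ha.injOn hBas
  set δ := (Sing B).card - 2 * d with hδ
  set N := i + 1 - ((KK B).card + 2 * (TT B).card) with hN
  have hinj : Function.Injective (WN_lam (tau a B) P1 Q1 P2 Q2) := by
    intro x y hxy
    apply hSinj
    funext q
    exact mul_left_cancel₀ hτ0 (congrFun hxy q)
  have hW : ∀ k ∈ KK B, P1.eval (a k) * Q2.eval (a k) - P2.eval (a k) * Q1.eval (a k) ≠ 0 := by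
    intro k hk
    have h1 := congrArg (fun P : ℂ[X] => P.eval (a k)) hBas.det
    simp only [eval_sub, eval_mul, eval_prod, eval_X, eval_C] at h1
    rw [h1, Finset.prod_ne_zero_iff]
    intro l hl h2
    have h3 : k = l := ha (sub_eq_zero.1 h2)
    subst h3
    rw [mem_Sing] at hl
    simp only [KK, mem_filter, mem_univ, true_and] at hk
    omega
  rw [(Submodule.equivMapOfInjective _ hinj (NN a c (KK B) δ (N - 2 * d))).finrank_eq]
  refine hWV h a B i _ fun F => ?_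
  rw [hLC h a β B ha hB1 hBs F, Submodule.mem_map]
  constructor
  · rintro ⟨x, ⟨hx1, hx2⟩, rfl⟩
    obtain ⟨hG1, hG2⟩ := (hS (Sy P1 Q1 P2 Q2 x) N).2 ⟨x, rfl, hx1⟩
    refine ⟨fun q => ?_, Sy P1 Q1 P2 Q2 x, fun q => rfl, hG2, fun k hk b hb => ?_⟩
    · change tau a B * Sy P1 Q1 P2 Q2 x q ∈ degreeLT ℂ (i + 1)
      rw [mem_degreeLT_mul hτ0, hτd]
      exact hG1 q
    · rw [WN_ev]
      obtain ⟨s, hs⟩ := hx2 k hk
      have h1 : (fun q => (x q).eval (a k)) = fun q => s * c k q := funext hs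
      rw [h1, WN_smul, (hc k hk).2 b hb, mul_zero]
  · rintro ⟨hF1, G, hG1, hG2, hG3⟩
    have hG4 : ∀ q, G q ∈ degreeLT ℂ N := by
      intro q
      have h1 := hF1 q
      rw [hG1, mem_degreeLT_mul hτ0, hτd] at h1
      exact h1
    obtain ⟨x, rfl, hx⟩ := (hS G N).1 ⟨hG4, hG2⟩
    refine ⟨x, ⟨hx, fun k hk => ?_⟩, ?_⟩
    · have hk2 : (B k).card = 2 := by
        simpa [KK] using hk
      obtain ⟨b, b', hbb, hBk⟩ := Finset.card_eq_two.1 hk2
      obtain ⟨hck0, hck⟩ := hc k hk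
      have hb : b ∈ B k := by rw [hBk]; simp
      have hb' : b' ∈ B k := by rw [hBk]; simp
      obtain ⟨h1, -, -⟩ := (hCK P1 Q1 P2 Q2 (a k) b b' hbb (hW k hk)).1 (c k) hck0
        (hck b hb) (hck b' hb')
      have h2 := (h1 fun q => (x q).eval (a k)).1
        ⟨by rw [← WN_ev]; exact hG3 k hk b hb, by rw [← WN_ev]; exact hG3 k hk b' hb'⟩
      exact h2
    · funext q
      exact (hG1 q).symm

end Pool.Agent.helper87.TR
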